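import Pool.Agent.EDG.Final

set_option autoImplicit false

/-!
# MP_431ff4_lc: degree maps induced by functions on the natural numbers

`EDeg` is the ordered set of the enumeration degrees, `deg A` the degree of `A`.
Every monotone injective map `π` of the enumeration degrees into themselves (for instance every
automorphism) which is induced by a function `f` on the natural numbers, i.e.
`π (deg A) = deg (f '' A)` for all `A`, is the identity, and `f` is computable.
-/

namespace Pool.Agent.Superseded.MP_431ff4_lc.InducedByFunction

open Pool.Agent.EDG

theorem result (π : EDeg → EDeg) (hm : Monotone π) (hi : Function.Injective π) (f : ℕ → ℕ)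
    (h : ∀ A : Set ℕ, π (deg A) = deg (f '' A)) : π = id ∧ Computable f :=
  induced π hm hi f h

end Pool.Agent.Superseded.MP_431ff4_lc.InducedByFunction
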